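import Pool.Agent.H88.CM.Targets

/-! Closing lemma on compact manifolds, module CLM: many bumps with disjoint supports. -/

set_option autoImplicit false

open Set Function Topology Metric Filter
open scoped Manifold
open Pool.Agent.H88.CL Pool.Agent.H88.CM

namespace Pool.Agent.H39.CM

/-- derivatives of expressions in charts depend only on the germ -/
theorem rep_congr {d : ℕ} {M : Type} [TopologicalSpace M] {φ ψ : Ch d M} {f H h : M → M} {z : M}
    (hz : z ∈ φ.source) (he : H =ᶠ[𝓝 z] h) :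
    fderiv ℝ (rep φ ψ (f ∘ H)) (φ z) = fderiv ℝ (rep φ ψ (f ∘ h)) (φ z) := by
  apply Filter.EventuallyEq.fderiv_eq
  have h1 : Tendsto φ.symm (𝓝 (φ z)) (𝓝 z) := by
    have h2 := φ.continuousAt_symm (φ.map_source hz)
    have h3 : φ.symm (φ z) = z := φ.left_inv hz
    unfold ContinuousAt at h2
    rwa [h3] at h2
  filter_upwards [h1.eventually he] with v hv
  show ψ (f (H (φ.symm v))) = ψ (f (h (φ.symm v)))
  rw [hv]

/-- the complement of finitely many closed sets -/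
theorem ev_not {M : Type} [TopologicalSpace M] (N : ℕ) (Sg : ℕ → Set M)
    (hcl : ∀ l < N, IsClosed (Sg l)) (P : ℕ → Prop) (z : M) (hz : ∀ j < N, P j → z ∉ Sg j) :
    ∀ᶠ y in 𝓝 z, ∀ j < N, P j → y ∉ Sg j := by
  have h1 : ∀ j ∈ Finset.range N, ∀ᶠ y in 𝓝 z, P j → y ∉ Sg j := by
    intro j hj
    by_cases hP : P j
    · have h2 := (hcl j (Finset.mem_range.1 hj)).isOpen_compl.mem_nhds
        (hz j (Finset.mem_range.1 hj) hP)
      filter_upwards [h2] with y hy _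
      exact hy
    · exact Eventually.of_forall fun y h => absurd h hP
  have h3 := (Finset.eventually_all (Finset.range N)).2 h1
  filter_upwards [h3] with y hy j hj
  exact hy j (Finset.mem_range.2 hj)

theorem pf_CLM (h1 : T_CLB) (h2 : Pool.Agent.H88.CL.T_MOD) : T_CLM := by
  intro d M _ _ _ _ _ n A Kh r hGA f f' hf φ ψ K hT ω η hω hη
  obtain ⟨s, C, hs, hC, hCLB⟩ := h1 d M n A Kh r hGA f f' hf φ ψ K hT
  have hC0 : 0 < C := by linarith
  have hωs : 0 < ω s := hω.pos s hs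
  obtain ⟨e, he0, he1, he2, he3, he4⟩ : ∃ e : ℝ, 0 < e ∧ C * e ≤ 1 ∧ C * e ≤ η ∧
      2 * (C * e) ≤ η * ω s ∧ 2 * (C * (e + e + e * (s / ω s))) ≤ η := by
    have hpos : 0 < C * (2 + s / ω s) := by positivity
    refine ⟨min (1 / C) (min (η / C) (min (η * ω s / (2 * C)) (η / (2 * (C * (2 + s / ω s)))))),
      ?_, ?_, ?_, ?_, ?_⟩
    · refine lt_min (by positivity) (lt_min (by positivity) (lt_min (by positivity)
        (by positivity)))
    · have h3 := min_le_left (1 / C) (min (η / C) (min (η * ω s / (2 * C))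
        (η / (2 * (C * (2 + s / ω s))))))
      rw [mul_comm]
      exact (le_div_iff₀ hC0).1 h3
    · have h3 := (min_le_right (1 / C) (min (η / C) (min (η * ω s / (2 * C))
        (η / (2 * (C * (2 + s / ω s))))))).trans (min_le_left _ _)
      rw [mul_comm]
      exact (le_div_iff₀ hC0).1 h3
    · have h3 := ((min_le_right (1 / C) (min (η / C) (min (η * ω s / (2 * C))
        (η / (2 * (C * (2 + s / ω s))))))).trans (min_le_right _ _)).trans (min_le_left _ _)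
      have h4 := (le_div_iff₀ (by positivity : (0 : ℝ) < 2 * C)).1 h3
      linarith
    · have h3 := ((min_le_right (1 / C) (min (η / C) (min (η * ω s / (2 * C))
        (η / (2 * (C * (2 + s / ω s))))))).trans (min_le_right _ _)).trans (min_le_right _ _)
      have h4 := (le_div_iff₀ (by positivity : (0 : ℝ) < 2 * (C * (2 + s / ω s)))).1 h3
      refine le_trans (le_of_eq ?_) h4
      ring
  refine ⟨e, he0, ?_⟩
  intro σ β γ N ι u Sg H hMB hS
  have hσ := hS.s0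
  have hβ := hS.b0
  have hγ := hS.g0
  have hσβ := hS.a
  have hCσβ : C * (σ + β) ≤ C * e := mul_le_mul_of_nonneg_left hσβ hC0.le
  have hCσ : C * σ ≤ C * e := mul_le_mul_of_nonneg_left (by linarith) hC0.le
  -- Fact A
  have hin : ∀ l < N, ∀ z ∈ Sg l, z ∈ (A (ι l)).source ∧ A (ι l) z ∈ Kh (ι l) := by
    intro l hl z hz
    obtain ⟨v, hv, hvz⟩ := hMB.sb l hl hz
    have hvt := hGA.sub (ι l) hv
    rw [← hvz]
    refine ⟨(A (ι l)).map_target hvt, ?_⟩
    rw [(A (ι l)).right_inv hvt]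
    exact hv
  have hA : ∀ l < N, ∀ z ∈ Sg l, H =ᶠ[𝓝 z] bmp (A (ι l)) (u l) := by
    intro l hl z hz
    have h3 := ev_not N Sg hMB.cl (fun j => j ≠ l) z fun j hj hjl hzj =>
      Set.disjoint_left.1 (hMB.dj l hl j hj (Ne.symm hjl)) hz hzj
    filter_upwards [h3] with y hy
    exact hMB.eq l hl y hy
  -- Fact B
  have hB : ∀ z, (∀ j < N, z ∉ Sg j) → H =ᶠ[𝓝 z] fun y => y := by
    intro z hz
    have h3 := ev_not N Sg hMB.cl (fun _ => True) z fun j hj _ => hz j hj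
    filter_upwards [h3] with y hy
    exact hMB.id y fun j hj => hy j hj trivial
  -- Fact C
  have hC' : ∀ l < N, ∀ z, z ∉ Sg l → bmp (A (ι l)) (u l) =ᶠ[𝓝 z] fun y => y := by
    intro l hl z hz
    filter_upwards [(hMB.cl l hl).isOpen_compl.mem_nhds hz] with y hy
    by_cases hys : y ∈ (A (ι l)).source
    · have h3 : u l (A (ι l) y) = 0 := by
        by_contra hne
        have h4 := hMB.sg l hl _ hne
        rw [(A (ι l)).left_inv hys] at h4
        exact hy h4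
      unfold bmp
      rw [if_pos hys, h3, add_zero]
      exact (A (ι l)).left_inv hys
    · unfold bmp
      rw [if_neg hys]
  -- the differences of the derivatives
  have hK := hT.s
  have hDA : ∀ l < N, ∀ z ∈ K, z ∈ Sg l → fderiv ℝ (rep φ ψ (f ∘ H)) (φ z) =
      fderiv ℝ (rep φ ψ (f ∘ bmp (A (ι l)) (u l))) (φ z) := fun l hl z hzK hz =>
    rep_congr (hK hzK) (hA l hl z hz)
  have hDB : ∀ z ∈ K, (∀ j < N, z ∉ Sg j) → fderiv ℝ (rep φ ψ (f ∘ H)) (φ z) =
      fderiv ℝ (rep φ ψ f) (φ z) := fun z hzK hz =>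
    rep_congr (f := f) (h := fun y => y) (hK hzK) (hB z hz)
  have hDC : ∀ l < N, ∀ z ∈ K, z ∉ Sg l →
      fderiv ℝ (rep φ ψ (f ∘ bmp (A (ι l)) (u l))) (φ z) = fderiv ℝ (rep φ ψ f) (φ z) :=
    fun l hl z hzK hz => rep_congr (f := f) (h := fun y => y) (hK hzK) (hC' l hl z hz)
  have hclb := fun l (hl : l < N) z (hzK : z ∈ K) (hz : z ∈ Sg l) =>
    hCLB (ι l) σ β γ (u l) (hMB.bp l hl) (hCσ.trans he1) hS.h z hzK (hin l hl z hz).1
      (hin l hl z hz).2
  have hDe : ∀ z ∈ K,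
      ‖fderiv ℝ (rep φ ψ (f ∘ H)) (φ z) - fderiv ℝ (rep φ ψ f) (φ z)‖ ≤ C * e := by
    intro z hzK
    by_cases hz : ∃ l < N, z ∈ Sg l
    · obtain ⟨l, hl, hzl⟩ := hz
      rw [hDA l hl z hzK hzl]
      exact (hclb l hl z hzK hzl).2.2.1.trans hCσβ
    · push Not at hz
      rw [hDB z hzK hz, sub_self, norm_zero]
      positivity
  refine ⟨?_, ?_, ?_, ?_⟩
  · intro y hy
    show f (H y) ∈ ψ.source
    by_cases hz : ∃ l < N, y ∈ Sg l
    · obtain ⟨l, hl, hzl⟩ := hz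
      have h3 : H y = bmp (A (ι l)) (u l) y := (hA l hl y hzl).self_of_nhds
      rw [h3]
      exact (hclb l hl y hy hzl).1
    · push Not at hz
      rw [hMB.id y hz]
      exact hT.t y hy
  · intro y hy
    show ‖ψ (f (H y)) - ψ (f y)‖ ≤ η
    by_cases hz : ∃ l < N, y ∈ Sg l
    · obtain ⟨l, hl, hzl⟩ := hz
      have h3 : H y = bmp (A (ι l)) (u l) y := (hA l hl y hzl).self_of_nhds
      rw [h3]
      exact ((hclb l hl y hy hzl).2.1.trans hCσ).trans he2
    · push Not at hz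
      rw [hMB.id y hz, sub_self, norm_zero]
      exact hη.le
  · rintro _ ⟨z, hz, rfl⟩
    exact (hDe z hz).trans he2
  · rintro _ ⟨z₁, hz₁, rfl⟩ _ ⟨z₂, hz₂, rfl⟩ hne
    have hρ : 0 < ‖φ z₁ - φ z₂‖ := norm_pos_iff.2 (sub_ne_zero.2 hne)
    rcases le_or_gt s ‖φ z₁ - φ z₂‖ with hsρ | hρs
    · have h3 := hω.mono s _ hs hsρ
      have h4 := norm_sub_le
        (fderiv ℝ (rep φ ψ (f ∘ H)) (φ z₁) - fderiv ℝ (rep φ ψ f) (φ z₁))
        (fderiv ℝ (rep φ ψ (f ∘ H)) (φ z₂) - fderiv ℝ (rep φ ψ f) (φ z₂))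
      have h5 := hDe z₁ hz₁
      have h6 := hDe z₂ hz₂
      have h7 := mul_le_mul_of_nonneg_left h3 hη.le
      linarith
    · -- the bound for one bump
      have hωρ : 0 < ω ‖φ z₁ - φ z₂‖ := hω.pos _ hρ
      have hmain : ∀ ρ : ℝ, ρ = ‖φ z₁ - φ z₂‖ →
          2 * (C * (min σ ρ + min β ((β + γ) * ρ) + (σ + β) * ρ)) ≤
            η * ω ‖φ z₁ - φ z₂‖ := by
        rintro ρ rfl
        have m1 : min σ ‖φ z₁ - φ z₂‖ ≤ e * ω ‖φ z₁ - φ z₂‖ := by
          have h3 := h2 ω hω σ 1 e _ hσ one_pos he0.le hρ (by rw [div_one]; exact hS.b)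
          rwa [one_mul] at h3
        have m2 : min β ((β + γ) * ‖φ z₁ - φ z₂‖) ≤ e * ω ‖φ z₁ - φ z₂‖ :=
          h2 ω hω β (β + γ) e _ hβ (by linarith) he0.le hρ hS.c
        have m3 : (σ + β) * ‖φ z₁ - φ z₂‖ ≤ e * (s / ω s) * ω ‖φ z₁ - φ z₂‖ := by
          have h3 : ‖φ z₁ - φ z₂‖ ≤ s / ω s * ω ‖φ z₁ - φ z₂‖ := by
            rw [div_mul_eq_mul_div, le_div_iff₀ hωs]
            exact hω.conc _ s hρ hρs.le
          have h4 := mul_le_mul hσβ h3 hρ.le he0.le
          rw [← mul_assoc] at h4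
          exact h4
        have m4 := mul_le_mul_of_nonneg_left (add_le_add (add_le_add m1 m2) m3) hC0.le
        have m5 := mul_le_mul_of_nonneg_right he4 hωρ.le
        have m6 : 2 * (C * (e + e + e * (s / ω s))) * ω ‖φ z₁ - φ z₂‖ =
            2 * (C * (e * ω ‖φ z₁ - φ z₂‖ + e * ω ‖φ z₁ - φ z₂‖ +
              e * (s / ω s) * ω ‖φ z₁ - φ z₂‖)) := by ring
        rw [m6] at m5
        linarith
      have hB12 := hmain _ rfl
      have hB21 := hmain _ (norm_sub_rev (φ z₂) (φ z₁))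
      have hpos1 : 0 ≤ C * (min σ ‖φ z₁ - φ z₂‖ + min β ((β + γ) * ‖φ z₁ - φ z₂‖) +
          (σ + β) * ‖φ z₁ - φ z₂‖) := by
        have p1 : 0 ≤ min σ ‖φ z₁ - φ z₂‖ := le_min hσ.le hρ.le
        have p2 : 0 ≤ min β ((β + γ) * ‖φ z₁ - φ z₂‖) := le_min hβ.le (by positivity)
        positivity
      have hρs' : ‖φ z₂ - φ z₁‖ < s := by rwa [norm_sub_rev]
      by_cases hsame : ∃ l < N, z₁ ∈ Sg l ∧ z₂ ∈ Sg l
      · obtain ⟨l, hl, hl1, hl2⟩ := hsame
        have h3 := (hclb l hl z₁ hz₁ hl1).2.2.2 (φ z₂) hρs'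
        rw [hDA l hl z₁ hz₁ hl1, hDA l hl z₂ hz₂ hl2]
        have hr : ‖φ z₂ - φ z₁‖ = ‖φ z₁ - φ z₂‖ := norm_sub_rev _ _
        rw [hr] at h3
        linarith
      · -- each of the two differences is small
        have hone : ∀ z ∈ K, ∀ z' ∈ K, ‖φ z' - φ z‖ = ‖φ z₁ - φ z₂‖ →
            (¬ ∃ l < N, z ∈ Sg l ∧ z' ∈ Sg l) →
            ‖fderiv ℝ (rep φ ψ (f ∘ H)) (φ z) - fderiv ℝ (rep φ ψ f) (φ z)‖ ≤
              C * (min σ ‖φ z₁ - φ z₂‖ + min β ((β + γ) * ‖φ z₁ - φ z₂‖) +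
                (σ + β) * ‖φ z₁ - φ z₂‖) := by
          intro z hz z' hz' hr hno
          by_cases hzl : ∃ l < N, z ∈ Sg l
          · obtain ⟨l, hl, hzl⟩ := hzl
            have hz'l : z' ∉ Sg l := fun h => hno ⟨l, hl, hzl, h⟩
            have h3 := (hclb l hl z hz hzl).2.2.2 (φ z') (by rw [hr]; exact hρs)
            rw [hDC l hl z' hz' hz'l, sub_self, sub_zero, hr] at h3
            rw [hDA l hl z hz hzl]
            exact h3
          · push Not at hzl
            rw [hDB z hz hzl, sub_self, norm_zero]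
            exact hpos1
        have h3 := hone z₁ hz₁ z₂ hz₂ (norm_sub_rev _ _) hsame
        have h4 := hone z₂ hz₂ z₁ hz₁ rfl fun ⟨l, hl, ha, hb⟩ => hsame ⟨l, hl, hb, ha⟩
        have h5 := norm_sub_le
          (fderiv ℝ (rep φ ψ (f ∘ H)) (φ z₁) - fderiv ℝ (rep φ ψ f) (φ z₁))
          (fderiv ℝ (rep φ ψ (f ∘ H)) (φ z₂) - fderiv ℝ (rep φ ψ f) (φ z₂))
        linarith

end Pool.Agent.H39.CM
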