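import Pool.Agent.H60.CM.Basic

/-!
# Board cms_modules, row TAU: the symmetry preserves the area
-/

set_option autoImplicit false

open Set Function MeasureTheory Filter Topology
open scoped Manifold ContDiff Matrix
open Pool.Agent.H60.CM

namespace Pool.Agent.H39.CM

theorem mir_cross (v w : V3) : mir v ⨯₃ mir w = -mir (v ⨯₃ w) := by
  ext i
  fin_cases i <;> simp [mir, cross_apply] <;> ring

theorem mir_dot (v w : V3) : mir v ⬝ᵥ mir w = v ⬝ᵥ w := by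
  simp [mir, Matrix.vec3_dotProduct, add_assoc]

theorem mir_mir (v : V3) : mir (mir v) = v := by
  ext i
  fin_cases i <;> simp [mir]

/-- the reflection as a continuous linear map -/
noncomputable def mirL : V3 →L[ℝ] V3 := LinearMap.toContinuousLinearMap
  { toFun := mir
    map_add' := by
      intro v w
      ext i
      fin_cases i <;> simp [mir] <;> ring
    map_smul' := by
      intro c v
      ext i
      fin_cases i <;> simp [mir] }

theorem mirL_apply (v : V3) : mirL v = mir v := rfl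

theorem pd_mir {X : E2 → V3} {y : E2} (h : DifferentiableAt ℝ X y) (i : Fin 2) :
    pd (fun z => mir (X z)) y i = mir (pd X y i) := by
  have h1 : HasFDerivAt (fun z => mirL (X z)) (mirL.comp (fderiv ℝ X y)) y :=
    mirL.hasFDerivAt.comp y h.hasFDerivAt
  unfold pd
  have h2 : (fun z => mir (X z)) = fun z => mirL (X z) := rfl
  rw [h2, h1.fderiv]
  rfl

theorem cross_neg_mir (v w : V3) (h : v ⨯₃ w ≠ 0) : mir v ⨯₃ mir w ≠ 0 := by
  intro h1
  rw [mir_cross, neg_eq_zero] at h1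
  apply h
  rw [← mir_mir (v ⨯₃ w), h1]
  ext i
  fin_cases i <;> simp [mir]

theorem patch (Y : Sy) {O : Set E2} {ψ : E2 → Y.S} (h : Y.toDat.Pch O ψ) :
    Y.toDat.Pch O (fun y => Y.τ (ψ y)) ∧
      ∀ y ∈ O, aw (Y.x ∘ fun y => Y.τ (ψ y)) y = aw (Y.x ∘ ψ) y := by
  have hx : (Y.x ∘ fun y => Y.τ (ψ y)) = fun y => mir ((Y.x ∘ ψ) y) := by
    funext y
    exact Y.mirr (ψ y)
  have hd : ∀ y ∈ O, DifferentiableAt ℝ (Y.x ∘ ψ) y := by
    intro y hy
    have h1 : ContMDiffOn 𝓘(ℝ, E2) 𝓘(ℝ, V3) ∞ (Y.x ∘ ψ) O :=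
      ContMDiff.comp_contMDiffOn (Y.toDat.smx) h.smooth
    have h2 : ContDiffOn ℝ ∞ (Y.x ∘ ψ) O := contMDiffOn_iff_contDiffOn.1 h1
    exact (h2.differentiableOn (by simp)).differentiableAt (h.isOpen.mem_nhds hy)
  have hpd : ∀ y ∈ O, ∀ i, pd (Y.x ∘ fun y => Y.τ (ψ y)) y i = mir (pd (Y.x ∘ ψ) y i) := by
    intro y hy i
    rw [hx]
    exact pd_mir (hd y hy) i
  refine ⟨⟨h.isOpen, ?_, ?_, ?_, ?_, ?_⟩, ?_⟩
  · exact Y.τ.contMDiff.comp_contMDiffOn h.smooth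
  · intro a ha b hb hab
    exact h.inj ha hb (Y.τ.injective hab)
  · intro U hU hUo
    have h1 : (fun y => Y.τ (ψ y)) '' U = Y.τ '' (ψ '' U) := by
      rw [image_image]
    rw [h1]
    exact Y.τ.toHomeomorph.isOpenMap _ (h.im U hU hUo)
  · rintro _ ⟨y, hy, rfl⟩
    have h1 : ψ y ∈ Y.toDat.int := h.int ⟨y, hy, rfl⟩
    have h2 : Y.τ '' (𝓡∂ 2).interior Y.S = (𝓡∂ 2).interior Y.S :=
      Y.τ.image_interior (by simp)
    have h3 : Y.τ (ψ y) ∈ Y.τ '' (𝓡∂ 2).interior Y.S := ⟨ψ y, h1, rfl⟩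
    rw [h2] at h3
    exact h3
  · intro y hy
    rw [hpd y hy, hpd y hy]
    exact cross_neg_mir _ _ (h.imm y hy)
  · intro y hy
    unfold aw
    rw [hpd y hy, hpd y hy, mir_cross, neg_dotProduct, dotProduct_neg, neg_neg, mir_dot]

/-- the integral of a function with support in the image of a patch -/
theorem tau_patch (h2 : T_ARE) (Y : Sy) {O : Set E2} {ψ : E2 → Y.S} (h : Y.toDat.Pch O ψ)
    (G : Y.S → ℝ) (hG : Continuous G) (hs : ∀ p, Y.τ p ∉ ψ '' O → G p = 0) :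
    ∫ p, G p ∂Y.μ = ∫ p, G (Y.τ p) ∂Y.μ := by
  obtain ⟨hp, haw⟩ := patch Y h
  have e1 := h2 Y.toDat O (fun y => Y.τ (ψ y)) hp G hG.measurable
  have hG' : Continuous fun p => G (Y.τ p) := hG.comp Y.τ.continuous
  have e2 := h2 Y.toDat O ψ h (fun p => G (Y.τ p)) hG'.measurable
  have e3 : ∫ y in O, G (Y.τ (ψ y)) * aw (Y.x ∘ fun y => Y.τ (ψ y)) y =
      ∫ y in O, G (Y.τ (ψ y)) * aw (Y.x ∘ ψ) y := by
    refine setIntegral_congr_fun h.isOpen.measurableSet fun y hy => ?_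
    show G (Y.τ (ψ y)) * aw (Y.x ∘ fun y => Y.τ (ψ y)) y = G (Y.τ (ψ y)) * aw (Y.x ∘ ψ) y
    rw [haw y hy]
  have e4 : ∫ p in (fun y => Y.τ (ψ y)) '' O, G p ∂Y.μ = ∫ p, G p ∂Y.μ := by
    refine setIntegral_eq_integral_of_forall_compl_eq_zero fun p hp => hs p ?_
    rintro ⟨y, hy, hyp⟩
    refine hp ⟨y, hy, ?_⟩
    show Y.τ (ψ y) = p
    rw [hyp, Y.inv]
  have e5 : ∫ p in ψ '' O, G (Y.τ p) ∂Y.μ = ∫ p, G (Y.τ p) ∂Y.μ := by
    refine setIntegral_eq_integral_of_forall_compl_eq_zero fun p hp => hs _ ?_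
    rw [Y.inv]
    exact hp
  rw [← e4, ← e5, e1, e2]
  exact e3

theorem pf_TAU (h1 : T_PAT) (h2 : T_ARE) : T_TAU := by
  intro Y F hF hs
  -- the compact set
  have hK : IsClosed (Y.τ ⁻¹' tsupport F) := (isClosed_tsupport F).preimage Y.τ.continuous
  have hKc : IsCompact (Y.τ ⁻¹' tsupport F) := hK.isCompact
  have hKi : Y.τ ⁻¹' tsupport F ⊆ Y.int := by
    intro p hp
    have h3 : Y.τ ⁻¹' (𝓡∂ 2).interior Y.S = (𝓡∂ 2).interior Y.S :=
      Y.τ.preimage_interior (by simp)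
    have h4 : p ∈ Y.τ ⁻¹' (𝓡∂ 2).interior Y.S := hs hp
    rw [h3] at h4
    exact h4
  -- the cover
  have hpat : ∀ p : Y.S, ∃ V : Set Y.S, (p ∈ Y.τ ⁻¹' tsupport F → V ∈ 𝓝 p) ∧
      IsOpen V ∧ ((∃ (O : Set E2) (ψ : E2 → Y.S), Y.toDat.Pch O ψ ∧ ψ '' O = V) ∨ V = ∅) := by
    intro p
    by_cases hp : p ∈ Y.τ ⁻¹' tsupport F
    · obtain ⟨O, ψ, y, h3, h4, h5, -⟩ := h1 Y.toDat p univ (hKi hp) isOpen_univ (mem_univ p)
      have h6 : IsOpen (ψ '' O) := h3.im O Subset.rfl h3.isOpen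
      refine ⟨ψ '' O, fun _ => h6.mem_nhds ⟨y, h4, h5⟩, h6, Or.inl ⟨O, ψ, h3, rfl⟩⟩
    · exact ⟨∅, fun h => absurd h hp, isOpen_empty, Or.inr rfl⟩
  choose V hV1 hV2 hV3 using hpat
  obtain ⟨t, -, ht⟩ := hKc.elim_nhds_subcover V hV1
  have hcov : Y.τ ⁻¹' tsupport F ⊆ ⋃ i : t, V i := by
    intro p hp
    obtain ⟨i, hi, hpi⟩ := mem_iUnion₂.1 (ht hp)
    exact mem_iUnion.2 ⟨⟨i, hi⟩, hpi⟩
  obtain ⟨ρ, hρ⟩ := PartitionOfUnity.exists_isSubordinate_of_locallyFinite hK (fun i : t => V i)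
    (fun i => hV2 i) (locallyFinite_of_finite _) hcov
  have hsum : ∀ p ∈ Y.τ ⁻¹' tsupport F, ∑ i : t, ρ i p = 1 := by
    intro p hp
    have h3 := ρ.sum_eq_one hp
    rwa [finsum_eq_sum_of_fintype] at h3
  -- the pieces
  have hGc : ∀ i : t, Continuous fun p => ρ i (Y.τ p) * F p := fun i =>
    ((ρ i).continuous.comp Y.τ.continuous).mul hF
  have hGc' : ∀ i : t, Continuous fun p => ρ i (Y.τ (Y.τ p)) * F (Y.τ p) := fun i =>
    (hGc i).comp Y.τ.continuous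
  have hpiece : ∀ i : t, ∫ p, ρ i (Y.τ p) * F p ∂Y.μ =
      ∫ p, ρ i (Y.τ (Y.τ p)) * F (Y.τ p) ∂Y.μ := by
    intro i
    have hz : ∀ q, q ∉ V i → ρ i q = 0 := fun q hq =>
      image_eq_zero_of_notMem_tsupport fun h => hq (hρ i h)
    rcases hV3 i with ⟨O, ψ, h3, h4⟩ | h3
    · refine tau_patch h2 Y h3 (fun p => ρ i (Y.τ p) * F p) (hGc i) fun p hp => ?_
      rw [h4] at hp
      show ρ i (Y.τ p) * F p = 0
      rw [hz _ hp, zero_mul]
    · have hz' : ∀ q, ρ i q = 0 := fun q => hz q (by rw [h3]; exact notMem_empty q)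
      simp only [hz', zero_mul]
  have e1 : ∀ p, F p = ∑ i : t, ρ i (Y.τ p) * F p := by
    intro p
    rw [← Finset.sum_mul]
    by_cases hp : F p = 0
    · rw [hp, mul_zero]
    · have h3 : Y.τ p ∈ Y.τ ⁻¹' tsupport F := by
        show Y.τ (Y.τ p) ∈ tsupport F
        rw [Y.inv]
        exact subset_tsupport F hp
      rw [hsum _ h3, one_mul]
  have e2 : ∫ p, F p ∂Y.μ = ∑ i : t, ∫ p, ρ i (Y.τ p) * F p ∂Y.μ := by
    rw [← integral_finsetSum _ fun i _ => Y.toDat.cont_int (hGc i)]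
    exact integral_congr_ae (Eventually.of_forall e1)
  have e3 : ∫ p, F (Y.τ p) ∂Y.μ = ∑ i : t, ∫ p, ρ i (Y.τ (Y.τ p)) * F (Y.τ p) ∂Y.μ := by
    rw [← integral_finsetSum _ fun i _ => Y.toDat.cont_int (hGc' i)]
    exact integral_congr_ae (Eventually.of_forall fun p => e1 (Y.τ p))
  rw [e2, e3]
  exact Finset.sum_congr rfl fun i _ => (hpiece i).symm

end Pool.Agent.H39.CM
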